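import Pool.Agent.H28.ZT.Fin

/-!
# MP_925da8_nt: the lower bound of the conjectured order for `L(T)`, without any hypothesis

`L(T) = lim e^x P(T,x)` exists in `[0, ∞]` and `L(T) ≥ c (log T)^(1/4)` for all large `T`.
-/

set_option autoImplicit false

namespace Pool.Agent.Results.MP_925da8_nt.SmallValuesLower

open MeasureTheory Filter Topology Complex

/-- `P(T,x) = (1/T) meas {t ∈ [0,T] : log |ζ(1/2+it)| < -x}`; zeros of zeta lie in the set. -/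
noncomputable def P (T x : ℝ) : ℝ :=
  1 / T * (volume {t : ℝ | 0 ≤ t ∧ t ≤ T ∧ (riemannZeta (1 / 2 + I * (t : ℂ)) = 0 ∨
    Real.log ‖riemannZeta (1 / 2 + I * (t : ℂ))‖ < -x)}).toReal

theorem result : ∃ c T0 : ℝ, 0 < c ∧ 0 < T0 ∧ ∀ T : ℝ, T0 ≤ T → ∃ L : ENNReal,
    Tendsto (fun x : ℝ => ENNReal.ofReal (Real.exp x * P T x)) atTop (𝓝 L) ∧
      ENNReal.ofReal (c * (Real.log T) ^ (1 / 4 : ℝ)) ≤ L := by
  obtain ⟨c, T0, hc, hT0, h⟩ := Pool.Agent.H28.ZT.fin_lower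
  refine ⟨c, T0, hc, hT0, fun T hT => ?_⟩
  obtain ⟨L, hL⟩ := Pool.Agent.H28.ZT.fin_limit T (lt_of_lt_of_le hT0 hT)
  refine ⟨L, hL, ge_of_tendsto hL ?_⟩
  filter_upwards [h T hT] with x hx
  exact ENNReal.ofReal_le_ofReal hx

end Pool.Agent.Results.MP_925da8_nt.SmallValuesLower
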